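import Pool.Agent.H525.SH.Fin

set_option autoImplicit false

/-!
# Almost primes in short cubes of number fields

Let `K` be a number field of degree `d`, `r ≥ 2` and `4 / (3 r + 1) < θ ≤ 1`.  We prove that for large `T` every
cube of side about `T ^ θ` in the ring of integers of `K`, with a centre `z₀` of size at most `T` (all conjugates), has
`≫ (T ^ θ) ^ d / log T` points `z` such that the norm of `z` has at most `r` prime factors, counted with
multiplicity, all of them larger than `(T ^ θ) ^ (d / 5)`.

The number of the prime factors of the norm is at least the number of the prime ideal factors of `z`.  For `r = 3`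
we may take `θ < 1/2`: in every number field the analogue of the question (the limit of
`√p_{n+1} - √p_n` is `0`, i.e. each interval of length `ε √x` about a large `x` contains a prime) is true for
integers with at most three prime factors, and with a power of `T` to spare.

The proof.  Kuhn's weighted linear sieve for the norms of the points of a box in `ℤ ^ d`.  For each prime number `p`
the density of the `z` with `p ∣ N z` is `1 - ∏ (1 - 1 / N P)`, the product over the prime ideals `P` above `p`; this has
dimension one by the prime ideal theorem.  The error terms come from inclusion and exclusion over the prime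
ideals and from counting the points of an ideal in a box: an ideal `I` has, uniformly in `I`,
`W ^ d / N I + O((W / (N I) ^ (1 / d)) ^ (d - 1) + 1)` points in a box of side `W`, as all ideals are lattices
without short vectors.  This gives the level of distribution `(W ^ d) ^ (1 - ε)`.
-/

namespace Pool.Agent.Results.MP_3998cf_nt.AlmostPrimesInShortCubes

open NumberField

/-- For every number field `K` of degree `d`, `r ≥ 2` and `4 / (3 r + 1) < θ ≤ 1` there are `κ > 0` and `T₀` such
that for all `T ≥ T₀` and all integers `z₀` of `K` with `|σ z₀| ≤ T` for all embeddings `σ` there are at least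
`κ (T ^ θ) ^ d / log T` integers `z` of `K`, not zero and not units, with `|σ (z - z₀)| ≤ T ^ θ` for all `σ`, such that
the norm of `z` has at most `r` prime factors, counted with multiplicity, all at least `(T ^ θ) ^ (d / 5)`. -/
theorem result (K : Type) [Field K] [NumberField K] (r : ℕ) (hr : 2 ≤ r) (θ : ℝ)
    (h1 : 4 / (3 * r + 1) < θ) (h2 : θ ≤ 1) :
    ∃ κ : ℝ, 0 < κ ∧ ∃ T₀ : ℝ, ∀ T : ℝ, T₀ ≤ T → ∀ z₀ : 𝓞 K,
      (∀ σ : K →+* ℂ, ‖σ (z₀ : K)‖ ≤ T) →
      ∃ S : Finset (𝓞 K), κ * (T ^ θ) ^ Module.finrank ℚ K / Real.log T ≤ (S.card : ℝ) ∧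
        ∀ z ∈ S, (∀ σ : K →+* ℂ, ‖σ ((z - z₀ : 𝓞 K) : K)‖ ≤ T ^ θ) ∧ z ≠ 0 ∧ ¬ IsUnit z ∧
          (Algebra.norm ℤ z).natAbs.primeFactorsList.length ≤ r ∧
          ∀ p : ℕ, p.Prime → p ∣ (Algebra.norm ℤ z).natAbs →
            (T ^ θ) ^ ((Module.finrank ℚ K : ℝ) / 5) ≤ (p : ℝ) := by
  obtain ⟨κ, hκ, T₀, h⟩ := Pool.Agent.H525.SH.fin K r hr θ h1 h2
  refine ⟨κ, hκ, T₀, fun T hT z₀ hz₀ => ?_⟩
  obtain ⟨S, hS1, hS2⟩ := h T hT z₀ (fun σ => hz₀ (σ : K →+* ℂ))
  refine ⟨S, hS1, fun z hz => ?_⟩
  obtain ⟨e1, e2, e3, e4, e5⟩ := hS2 z hz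
  exact ⟨fun σ => e1 σ.toRatAlgHom, e2, e3, e4, e5⟩

end Pool.Agent.Results.MP_3998cf_nt.AlmostPrimesInShortCubes
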