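import Pool.Agent.H204.AS.Lim2

open MeasureTheory Set Filter Topology
open scoped ENNReal ComplexConjugate

namespace Pool.Agent.Results.MP_3998cf_nt.LimitPointsOfRootDifferences

/-!
# The limit points of the differences of the square roots of consecutive primes

Q1 asks whether `√p_{n+1} - √p_n → 0`, i.e. whether `0` is the only limit point (in `[0, ∞]`) of
these differences. In the model of Beurling's generalised primes, with the Riemann hypothesis (or
any other finite set of zeros to the right of `1 / 2`), the Lindelöf bound, square-root error terms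
in the counting functions of the generalised integers and of the generalised primes, with or
without the law in almost all intervals, the possible sets of limit points are exactly the closed
subsets of `[0, ∞]` which contain `0`. The construction uses the engine of helper521
(`Pool.Agent.H521`).
-/

/-- A sequence of (Beurling) generalised primes `1 < p 0 < p 1 < ⋯ → ∞`. -/
structure GenPrimes (p : ℕ → ℝ) : Prop where
  one_lt : 1 < p 0
  strictMono : StrictMono p
  tendsto : Tendsto p atTop atTop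

/-- The generalised integer `∏ p_j ^ (e j)` with exponent vector `e`. -/
noncomputable def genInt (p : ℕ → ℝ) (e : ℕ →₀ ℕ) : ℝ := e.prod fun j k => p j ^ k

/-- `N_P(x)`, the number of generalised integers `≤ x`, counted with multiplicity. -/
noncomputable def countInts (p : ℕ → ℝ) (x : ℝ) : ℕ := Set.ncard {e : ℕ →₀ ℕ | genInt p e ≤ x}

/-- `π_P(x)`, the number of generalised primes `≤ x`. -/
noncomputable def countPrimes (p : ℕ → ℝ) (x : ℝ) : ℕ := Set.ncard {j : ℕ | p j ≤ x}

/-- The zeta function `ζ_P(s) = ∑ n^{-s}` over the generalised integers. -/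
noncomputable def zetaP (p : ℕ → ℝ) (s : ℂ) : ℂ := ∑' e : ℕ →₀ ℕ, ((genInt p e : ℝ) : ℂ) ^ (-s)

/-- The main term `∫_2^x (1 - ∑_{ρ ∈ Z} Re u^{ρ-1}) du / log u` of the prime counting function,
that is `li x - ∑_ρ li x^ρ` up to a constant, for a finite multiset `Z` of zeros. -/
noncomputable def primeMain (Z : Multiset ℂ) (x : ℝ) : ℝ :=
  ∫ u in (2 : ℝ)..x, (1 - (Z.map fun ρ => ((u : ℂ) ^ (ρ - 1)).re).sum) / Real.log u

/-- `p` is a system of generalised primes whose zeta function continues to `Re s > 1/2`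
with only a simple pole at `1`, with zeros exactly `Z` there (with multiplicity) and with the
Lindelöf bound, and with square-root error terms in the counting of generalised integers and
of generalised primes.  For `Z = 0` this is the Riemann hypothesis for `p`. -/
structure System (Z : Multiset ℂ) (p : ℕ → ℝ) : Prop where
  primes : GenPrimes p
  summable : ∀ s : ℂ, 1 < s.re → Summable fun e : ℕ →₀ ℕ => ((genInt p e : ℝ) : ℂ) ^ (-s)
  zeta : ∃ g : ℂ → ℂ, DifferentiableOn ℂ g {s : ℂ | 1 / 2 < s.re} ∧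
    (∀ s : ℂ, 1 < s.re → (s - 1) * zetaP p s = (Z.map fun ρ => s - ρ).prod * Complex.exp (g s)) ∧
    ∀ ε : ℝ, 0 < ε → ∃ C : ℝ, ∀ s : ℂ, 1 / 2 + ε ≤ s.re →
      ‖(Z.map fun ρ => s - ρ).prod * Complex.exp (g s)‖ ≤ C * (1 + ‖s‖) ^ (1 + ε)
  ints : ∃ κ : ℝ, 0 < κ ∧ ∀ ε : ℝ, 0 < ε → ∃ C : ℝ, ∀ x : ℝ, 1 ≤ x →
    |(countInts p x : ℝ) - κ * x| ≤ C * x ^ (1 / 2 + ε)
  pnt : ∀ ε : ℝ, 0 < ε → ∃ C : ℝ, ∀ x : ℝ, 2 ≤ x →
    |(countPrimes p x : ℝ) - primeMain Z x| ≤ C * x ^ (1 / 2 + ε)

/-- The exceptional points: the `x ≥ 2` such that, for some `H` between `A log x` and `x`, the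
number of primes in `(x, x + H]` differs from `H / log x` by more than `ε H / log x`. -/
def exceptional (p : ℕ → ℝ) (ε A : ℝ) : Set ℝ :=
  {x | 2 ≤ x ∧ ∃ H, A * Real.log x ≤ H ∧ H ≤ x ∧
    ε * (H / Real.log x) < |((countPrimes p (x + H) : ℝ) - countPrimes p x) - H / Real.log x|}

/-- The law in almost all short intervals: for every `ε > 0` there is `A` such that the set of
the points `x` which are exceptional for `ε`, `A` has measure `O(X ^ (1/2 + δ))` up to `X`, for
every `δ > 0`. -/
def AlmostAll (p : ℕ → ℝ) : Prop := ∀ ε : ℝ, 0 < ε → ∃ A : ℝ, ∀ δ : ℝ, 0 < δ → ∃ K : ℝ,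
  ∀ X : ℝ, 1 ≤ X → volume (exceptional p ε A ∩ Iic X) ≤ ENNReal.ofReal (K * X ^ (1 / 2 + δ))

/-- The set of limit points in `[0, ∞]` of the differences `√p_{n+1} - √p_n`. -/
def limitPoints (p : ℕ → ℝ) : Set ℝ≥0∞ :=
  {x | MapClusterPt x atTop fun n => ENNReal.ofReal (Real.sqrt (p (n + 1)) - Real.sqrt (p n))}

open Pool.Agent.H521 Pool.Agent.H521.G Pool.Agent.H204.SI Pool.Agent.H204.AS

/-- **Theorem.** (1) For a set `A` of numbers in `[0, ∞]` the following are equivalent: there is a
system of generalised primes with zeros `Z` and with the law in almost all intervals for which `A`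
is the set of limit points of `√p_{n+1} - √p_n`; there is a system with zeros `Z` for which `A` is
the set of limit points; `A` is closed and contains `0`. (2) The assertion of Q1 holds for a
system if and only if `0` is the only limit point. -/
theorem result (Z : Multiset ℂ) (hZ : ∀ ρ ∈ Z, 1 / 2 < ρ.re ∧ ρ.re < 1) (hZc : Z.map conj = Z) :
    (∀ A : Set ℝ≥0∞, List.TFAE [
      ∃ p : ℕ → ℝ, System Z p ∧ AlmostAll p ∧ limitPoints p = A,
      ∃ p : ℕ → ℝ, System Z p ∧ limitPoints p = A,
      IsClosed A ∧ 0 ∈ A]) ∧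
    ∀ p : ℕ → ℝ, System Z p →
      (limitPoints p = {0} ↔
        Tendsto (fun n => Real.sqrt (p (n + 1)) - Real.sqrt (p n)) atTop (𝓝 0)) := by
  have hZ1 : ∀ ρ ∈ Z, ρ.re < 1 := fun ρ h => (hZ ρ h).2
  refine ⟨fun A => ?_, fun p hS => ⟨fun h => ?_, fun h => ?_⟩⟩
  · tfae_have 1 → 2 := fun ⟨p, hS, _, h⟩ => ⟨p, hS, h⟩
    tfae_have 2 → 3 := by
      rintro ⟨p, hS, rfl⟩
      exact ⟨isClosed_setOfPred_clusterPt, zero_lim hZ1 hS.primes.strictMono hS.pnt⟩
    tfae_have 3 → 1 := by
      rintro ⟨h1, h2⟩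
      obtain ⟨p, hS, hA, h⟩ := exists_lim hZ1 hZc h1 h2
      exact ⟨p, ⟨⟨by linarith [hS.three_le 0], hS.mono, hS.tendsto⟩, hS.summable, hS.zeta,
        hS.ints, hS.pnt⟩, hA, h⟩
    tfae_finish
  · have h1 : Tendsto (fun n => ENNReal.ofReal (Real.sqrt (p (n + 1)) - Real.sqrt (p n))) atTop
        (𝓝 0) := by
      apply le_nhds_of_unique_clusterPt
      intro x hx
      have : x ∈ limitPoints p := hx
      rw [h] at this
      exact this
    have h2 := (ENNReal.tendsto_toReal ENNReal.zero_ne_top).comp h1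
    rw [ENNReal.toReal_zero] at h2
    refine h2.congr fun n => ?_
    have := Real.sqrt_le_sqrt (hS.primes.strictMono (Nat.lt_succ_self n)).le
    exact ENNReal.toReal_ofReal (by simpa using this)
  · have h1 := ENNReal.tendsto_ofReal h
    rw [ENNReal.ofReal_zero] at h1
    apply Set.eq_singleton_iff_unique_mem.2
    refine ⟨h1.mapClusterPt, fun x hx => ?_⟩
    obtain ⟨U, hU, hUx⟩ := mapClusterPt_iff_ultrafilter.1 hx
    exact tendsto_nhds_unique hUx (h1.mono_left hU)

end Pool.Agent.Results.MP_3998cf_nt.LimitPointsOfRootDifferences
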